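import Pool.Agent.MWS.StmtsA

/-!
Squad MWS, row BLR: replace the blocks one after the other.
-/

set_option autoImplicit false

namespace Pool.Agent.MWS.H82

open Pool.Agent.Helper14_MV Pool.Agent.Helper2_MV Pool.Agent.MVO Pool.Agent.MWL

/-- row BLR -/
theorem blr : BlrStmt := by
  intro θ k B B' h
  have key : ∀ m, m ≤ k + 1 → RR θ (asm k B) (asm k (fun j => if j < m then B' j else B j)) := by
    intro m
    induction m with
    | zero =>
      intro _
      have e : asm k B = asm k (fun j => if j < 0 then B' j else B j) :=
        asm_congr fun j _ => by simp
      rw [← e]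
      exact RR.refl _
    | succ m ih =>
      intro hm
      exact θ.trans (ih (by omega)) (h m (by omega))
  have h1 := key (k + 1) (le_refl _)
  have e : asm k (fun j => if j < k + 1 then B' j else B j) = asm k B' :=
    asm_congr fun j hj => by rw [if_pos (by omega)]
  rw [e] at h1
  exact h1

end Pool.Agent.MWS.H82
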